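import Pool.Agent.H9.CohDefs
import Pool.Agent.H9.CohProof

/-!
There are monoids M and T such that the special semidirect product of M is neither left nor right
coherent, T contains it as a submonoid, and T is both left and right coherent.
-/

namespace Pool.Agent.Results.MP_811a2c_al.Answer

open Pool.Agent.H9.Coh

theorem result : ∃ (M : Type) (_ : Monoid M) (T : Type) (_ : Monoid T),
    (¬ LeftCoherent (SpecialSD M) ∧ ¬ RightCoherent (SpecialSD M)) ∧
    (∃ f : SpecialSD M →* T, Function.Injective f) ∧
    (LeftCoherent T ∧ RightCoherent T) :=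
  ⟨MM, inferInstance, SpecialSD (NN BB), inferInstance, ⟨not_leftCoh, not_rightCoh⟩,
    ⟨SpecialSD.map incl, SpecialSD.map_injective incl incl_injective⟩, leftCoh, rightCoh⟩

end Pool.Agent.Results.MP_811a2c_al.Answer
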